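import Pool.Agent.W500.FL.Stm

set_option autoImplicit false

namespace Pool.Agent.W827.FL.FR

open Polynomial Pool.Agent.W500.FL

theorem one {K : Type} [Field K] [Fintype K] (p : ℕ) [hp : Fact p.Prime] [CharP K p]
    (V ρ R : K[X]) (h1 : ρ.Monic) (h2 : Squarefree ρ) (h3 : IsCoprime ρ V) :
    ∃ y : K[X], ρ ∣ V ^ p * y ^ p - R := by
  classical
  have hp0 : p ≠ 0 := hp.out.ne_zero
  let A := K[X] ⧸ Ideal.span {ρ}
  haveI : Module.Finite K A := h1.finite_quotient
  haveI : Finite A := Module.finite_of_finite K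
  have hinj : Function.Injective (fun x : A => x ^ p) := by
    intro x y hxy
    obtain ⟨a, rfl⟩ := Ideal.Quotient.mk_surjective x
    obtain ⟨b, rfl⟩ := Ideal.Quotient.mk_surjective y
    simp only [← map_pow] at hxy
    rw [Ideal.Quotient.eq, Ideal.mem_span_singleton, ← sub_pow_char] at hxy
    rw [Ideal.Quotient.eq, Ideal.mem_span_singleton]
    exact (h2.dvd_pow_iff_dvd hp0).mp hxy
  have hsurj : Function.Surjective (fun x : A => x ^ p) := Finite.surjective_of_injective hinj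
  obtain ⟨x, hx⟩ := hsurj (Ideal.Quotient.mk (Ideal.span {ρ}) R)
  obtain ⟨z, rfl⟩ := Ideal.Quotient.mk_surjective x
  simp only [← map_pow] at hx
  rw [Ideal.Quotient.eq, Ideal.mem_span_singleton] at hx
  obtain ⟨a, u, hau⟩ := h3
  refine ⟨u * z, ?_⟩
  have e : V ^ p * (u * z) ^ p - R = ((u * V) ^ p - 1 ^ p) * z ^ p + (z ^ p - R) := by
    rw [mul_pow u z, mul_pow u V]; ring
  rw [e]
  refine dvd_add (Dvd.dvd.mul_right ?_ _) hx
  refine dvd_trans ?_ (sub_dvd_pow_sub_pow (u * V) 1 p)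
  exact ⟨-a, by linear_combination hau⟩

theorem main : S_FR := by
  intro K _ _ p hp _ V H ρ R h1 h2 N
  classical
  have h3 : ∀ h : K[X], ∃ y : K[X], h ∈ H → ρ h ∣ V ^ p * y ^ p - R h := by
    intro h
    by_cases hh : h ∈ H
    · obtain ⟨y, hy⟩ := one p V (ρ h) (R h) (h1 h hh).1 (h1 h hh).2.1 (h1 h hh).2.2
      exact ⟨y, fun _ => hy⟩
    · exact ⟨0, fun h' => absurd h' hh⟩
  choose y hy using h3
  have hco : Pairwise (Function.onFun IsCoprime (fun h : {h // h ∈ H} => Ideal.span {ρ h.1})) := by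
    intro h k hhk
    exact (Ideal.isCoprime_span_singleton_iff _ _).mpr
      (h2 h.1 h.2 k.1 k.2 (fun hc => hhk (Subtype.ext hc)))
  obtain ⟨Y0, hY0⟩ := Ideal.exists_forall_sub_mem_ideal hco (fun h : {h // h ∈ H} => y h.1)
  set M : K[X] := ∏ h ∈ H, ρ h with hM
  have hMm : M.Monic := monic_prod_of_monic _ _ (fun h hh => (h1 h hh).1)
  set m := M.natDegree with hm
  set j := 4 * (N + Y0.natDegree + m + 1) - m with hj
  have hjm : m + j = 4 * (N + Y0.natDegree + m + 1) := by omega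
  have hMX : (M * X ^ j).Monic := hMm.mul (monic_X_pow j)
  have hdeg : (M * X ^ j).natDegree = m + j := by
    rw [hMm.natDegree_mul (monic_X_pow j), natDegree_X_pow]
  have hlt : Y0.natDegree < (M * X ^ j).natDegree := by
    rw [hdeg, hjm]; omega
  have hYdeg : (M * X ^ j + Y0).natDegree = 4 * (N + Y0.natDegree + m + 1) := by
    rw [natDegree_add_eq_left_of_natDegree_lt hlt, hdeg, hjm]
  refine ⟨M * X ^ j + Y0, hMX.add_of_left (degree_lt_degree hlt), ?_, ?_, ?_⟩
  · rw [hYdeg]; exact Dvd.intro _ rfl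
  · rw [hYdeg]; omega
  · intro h hh
    have h5 : ρ h ∣ Y0 - y h := Ideal.mem_span_singleton.mp (hY0 ⟨h, hh⟩)
    have h6 : ρ h ∣ M * X ^ j := Dvd.dvd.mul_right (Finset.dvd_prod_of_mem ρ hh) _
    have h7 : ρ h ∣ (M * X ^ j + Y0) - y h := by
      have : (M * X ^ j + Y0) - y h = M * X ^ j + (Y0 - y h) := by ring
      rw [this]
      exact dvd_add h6 h5
    have e : V ^ p * (M * X ^ j + Y0) ^ p - R h =
        ((M * X ^ j + Y0) ^ p - y h ^ p) * V ^ p + (V ^ p * y h ^ p - R h) := by ring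
    rw [e]
    exact dvd_add (Dvd.dvd.mul_right (dvd_trans h7 (sub_dvd_pow_sub_pow _ _ p)) _) (hy h hh)

end Pool.Agent.W827.FL.FR
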